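import Pool.Agent.W841.PK.ChkS

/-! Soundness of the surviving sums. -/

set_option autoImplicit false

namespace Pool.Agent.W577.PK

open W841.PK hiding dg
open W841.PK.Chk Finset

theorem gval_of_lt {gl gn gN : ℕ} (i : ℕ) (hlt : gN < 2 ^ (88 * gn)) (hd : S_Dig) :
    gval gl gn gN i = dg gN (i - gl) := by
  unfold gval
  split_ifs with h
  · rw [Nat.ble_eq] at h
    exact (hd.2.2.2.2.2.2.2.1 gN gn (i - gl) hlt (by omega)).symm
  · rfl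

theorem dg_Mb (hd : S_Dig) {gl gn gN b : ℕ} (hG : InvG gl gn gN) (i : ℕ) :
    dg (Mb gl gn gN b) i = gval gl gn gN (b + i) := by
  obtain ⟨d1, d2, d3, d4, d5, d6, d7, d8, d9⟩ := hd
  rw [gval_of_lt (b + i) hG.lt ⟨d1, d2, d3, d4, d5, d6, d7, d8, d9⟩]
  unfold Mb
  split_ifs with h
  · rw [Nat.ble_eq] at h
    have hlt := d9 gN 0
    have e1 : ∀ j, dg (2 ^ (88 * (gl - b)) * gN) j + dg (dg gN 0 * rep (gl - b)) j =
        if j < gl - b then dg gN 0 else dg gN (j - (gl - b)) := by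
      intro j
      rw [d2, d5 _ _ _ hlt]
      split_ifs <;> simp
    rw [d1, e1]
    · split_ifs with h2
      · rw [show b + i - gl = 0 by omega]
      · rw [show b + i - gl = i - (gl - b) by omega]
    · intro j
      rw [e1]
      split_ifs
      · exact d9 _ _
      · exact d9 _ _
  · rw [Nat.ble_eq] at h
    rw [d3]
    congr 1
    omega

theorem gval_le {gl gn gN : ℕ} (hG : InvG gl gn gN) (i : ℕ) : gval gl gn gN i ≤ 2 ^ 40 :=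
  (hG.anti 0 i (Nat.zero_le _)).trans hG.le

theorem AG_anti {gl gn gN : ℕ} (hG : InvG gl gn gN) : Antitone (AG gl gn gN) := by
  intro l l' h
  unfold AG
  have := hG.anti (l + 65536).toNat (l' + 65536).toNat (Int.toNat_le_toNat (by omega))
  have h' : ((gval gl gn gN (l' + 65536).toNat : ℕ) : ℝ) ≤ (gval gl gn gN (l + 65536).toNat : ℕ) := by
    exact_mod_cast this
  exact div_le_div_of_nonneg_right h' (by positivity)

theorem AG_mem {gl gn gN : ℕ} (hG : InvG gl gn gN) (l : ℤ) :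
    0 ≤ AG gl gn gN l ∧ AG gl gn gN l ≤ 1 := by
  unfold AG
  refine ⟨by positivity, ?_⟩
  rw [div_le_one (by positivity)]
  exact_mod_cast gval_le hG _

theorem dg_Sq (hd : S_Dig) (hm : S_DigMul) {gl gn gN b q W m : ℕ} (hG : InvG gl gn gN)
    (hmq : m = 56 * q) (hq : 1 ≤ q) (h3 : W < 2 ^ (88 * m))
    (h4 : ∑ i ∈ range m, dg W i < 2 ^ 41) :
    Sq W (Mb gl gn gN b) q =
      ∑ i ∈ range m, dg W (m - 1 - i) * gval gl gn gN (b + 1 + i) := by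
  have hX : ∀ i, dg (Mb gl gn gN b / 2 ^ 88 % 2 ^ (88 * m)) i =
      if i < m then gval gl gn gN (b + 1 + i) else 0 := by
    intro i
    rw [hd.2.2.2.1]
    split_ifs with h
    · have := hd.2.2.1 (Mb gl gn gN b) 1 i
      rw [mul_one] at this
      rw [this, dg_Mb hd hG]
      congr 1; ring
    · rfl
  unfold Sq
  rw [← hmq]
  have key := hm (Mb gl gn gN b / 2 ^ 88 % 2 ^ (88 * m)) W m (2 ^ 40) (m - 1)
    (by
      intro i
      rw [hX]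
      split_ifs
      · exact gval_le hG _
      · exact Nat.zero_le _)
    h3
    (by
      have : 2 ^ 40 * ∑ i ∈ range m, dg W i ≤ 2 ^ 40 * 2 ^ 41 := Nat.mul_le_mul_left _ h4.le
      exact lt_of_le_of_lt this (by norm_num))
  rw [key, ← sum_range_reflect]
  refine sum_congr rfl fun i hi => ?_
  rw [mem_range] at hi
  rw [if_pos (by omega), hX, if_pos (by omega)]
  congr 2; omega

theorem csq_gen (hd : S_Dig) (hm : S_DigMul) (hp : S_Pl) (hs : S_SemP) (δ : ℝ)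
    (gl gn gN b q W m : ℕ) (κ : ℝ) (CL : ℕ → ℕ) (hδ : 0 < δ) (hG : InvG gl gn gN)
    (hmq : m = 56 * q) (hκ : κ = 1 / (8 * (q : ℝ))) (hq : 1 ≤ q)
    (h1 : ∀ i < m, dg W (m - 1 - i) = CL i)
    (h2 : ∀ i < m, (CL i : ℝ) ≤ cm κ i * 2 ^ 40)
    (h3 : W < 2 ^ (88 * m))
    (h4 : ∑ i ∈ range m, dg W i < 2 ^ 41) :
    ((Sq W (Mb gl gn gN b) q : ℕ) : ℝ) / 2 ^ 80 ≤
      heat (refl (((b : ℝ) - 65536) * δ) (pl δ (AG gl gn gN))) ((8 * q * δ) ^ 2)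
        (((b : ℝ) - 65536) * δ) := by
  obtain ⟨p1, _, _, p4, _⟩ := hp δ hδ
  have hN := p4 (AG gl gn gN) (AG_anti hG) (AG_mem hG)
  refine le_trans ?_ (hs (pl δ (AG gl gn gN)) δ (((b : ℝ) - 65536) * δ) q hδ hq hN.1 hN.2.1)
  rw [← hmq, ← hκ]
  rw [dg_Sq hd hm hG hmq hq h3 h4, div_le_iff₀ (by positivity), sum_mul, Nat.cast_sum]
  refine sum_le_sum fun i hi => ?_
  rw [mem_range] at hi
  rw [h1 i hi, Nat.cast_mul]
  have e1 : pl δ (AG gl gn gN) (((b : ℝ) - 65536) * δ + ((i : ℝ) + 1) * δ) =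
      (gval gl gn gN (b + 1 + i) : ℝ) / 2 ^ 40 := by
    have e2 : ((b : ℝ) - 65536) * δ + ((i : ℝ) + 1) * δ =
        (((b : ℤ) - 65536 + (i + 1) : ℤ) : ℝ) * δ := by push_cast; ring
    rw [e2, p1]
    unfold AG
    rw [show ((b : ℤ) - 65536 + ((i : ℤ) + 1) + 65536).toNat = b + 1 + i by omega]
  rw [e1]
  have h5 := h2 i hi
  have h6 : (0 : ℝ) ≤ (gval gl gn gN (b + 1 + i) : ℝ) := Nat.cast_nonneg _
  calc (CL i : ℝ) * (gval gl gn gN (b + 1 + i) : ℝ) ≤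
      cm κ i * 2 ^ 40 * (gval gl gn gN (b + 1 + i) : ℝ) :=
        mul_le_mul_of_nonneg_right h5 h6
    _ = _ := by ring

theorem csq_abs (hd : S_Dig) (hm : S_DigMul) (hp : S_Pl) (hs : S_SemP)
    (V1 V2 V3 V4 : ℕ) (L1 L2 L3 L4 : List ℕ)
    (w1 : ∀ i < 56, dg V1 (55 - i) = L1.getD i 0)
    (w2 : ∀ i < 112, dg V2 (111 - i) = L2.getD i 0)
    (w3 : ∀ i < 168, dg V3 (167 - i) = L3.getD i 0)
    (w4 : ∀ i < 224, dg V4 (223 - i) = L4.getD i 0)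
    (y1 : ∀ i < 56, (L1.getD i 0 : ℝ) ≤ cm (1 / 8) i * 2 ^ 40)
    (y2 : ∀ i < 112, (L2.getD i 0 : ℝ) ≤ cm (1 / 16) i * 2 ^ 40)
    (y3 : ∀ i < 168, (L3.getD i 0 : ℝ) ≤ cm (1 / 24) i * 2 ^ 40)
    (y4 : ∀ i < 224, (L4.getD i 0 : ℝ) ≤ cm (1 / 32) i * 2 ^ 40)
    (l1 : V1 < 2 ^ (88 * 56)) (l2 : V2 < 2 ^ (88 * 112)) (l3 : V3 < 2 ^ (88 * 168))
    (l4 : V4 < 2 ^ (88 * 224))
    (s1 : ∑ i ∈ range 56, dg V1 i < 2 ^ 41) (s2 : ∑ i ∈ range 112, dg V2 i < 2 ^ 41)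
    (s3 : ∑ i ∈ range 168, dg V3 i < 2 ^ 41) (s4 : ∑ i ∈ range 224, dg V4 i < 2 ^ 41) :
    ∀ (δ : ℝ) (gl gn gN b q : ℕ), 0 < δ → InvG gl gn gN → 1 ≤ q → q ≤ 4 → 1000 ≤ b →
    (((match q with
      | 1 => Sq V1 (Mb gl gn gN b) 1
      | 2 => Sq V2 (Mb gl gn gN b) 2
      | 3 => Sq V3 (Mb gl gn gN b) 3
      | _ => Sq V4 (Mb gl gn gN b) 4 : ℕ) : ℝ)) / 2 ^ 80 ≤
      heat (refl (((b : ℝ) - 65536) * δ) (pl δ (AG gl gn gN))) ((8 * q * δ) ^ 2)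
        (((b : ℝ) - 65536) * δ) := by
  intro δ gl gn gN b q hδ hG hq1 hq4 _
  have hcases : q = 1 ∨ q = 2 ∨ q = 3 ∨ q = 4 := by omega
  have x1 : ∀ i < 56, dg V1 (56 - 1 - i) = L1.getD i 0 := fun i hi => by
    rw [show 56 - 1 - i = 55 - i by omega]; exact w1 i hi
  have x2 : ∀ i < 112, dg V2 (112 - 1 - i) = L2.getD i 0 := fun i hi => by
    rw [show 112 - 1 - i = 111 - i by omega]; exact w2 i hi
  have x3 : ∀ i < 168, dg V3 (168 - 1 - i) = L3.getD i 0 := fun i hi => by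
    rw [show 168 - 1 - i = 167 - i by omega]; exact w3 i hi
  have x4 : ∀ i < 224, dg V4 (224 - 1 - i) = L4.getD i 0 := fun i hi => by
    rw [show 224 - 1 - i = 223 - i by omega]; exact w4 i hi
  rcases hcases with rfl | rfl | rfl | rfl
  · exact csq_gen hd hm hp hs δ gl gn gN b 1 V1 56 (1 / 8) (fun i => L1.getD i 0) hδ hG
      (by norm_num) (by norm_num) (by norm_num) x1 y1 l1 s1
  · exact csq_gen hd hm hp hs δ gl gn gN b 2 V2 112 (1 / 16) (fun i => L2.getD i 0) hδ hG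
      (by norm_num) (by norm_num) (by norm_num) x2 y2 l2 s2
  · exact csq_gen hd hm hp hs δ gl gn gN b 3 V3 168 (1 / 24) (fun i => L3.getD i 0) hδ hG
      (by norm_num) (by norm_num) (by norm_num) x3 y3 l3 s3
  · exact csq_gen hd hm hp hs δ gl gn gN b 4 V4 224 (1 / 32) (fun i => L4.getD i 0) hδ hG
      (by norm_num) (by norm_num) (by norm_num) x4 y4 l4 s4

theorem csq (hd : S_Dig) (hm : S_DigMul) (hc : S_TabC) (hw : S_TabW) (hp : S_Pl) (hs : S_SemP) :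
    S_CSq :=
  csq_abs hd hm hp hs WL1 WL2 WL3 WL4 CL1 CL2 CL3 CL4
    (fun i hi => (hw.1 i hi).2.2) (fun i hi => (hw.2.1 i hi).2.2)
    (fun i hi => (hw.2.2.1 i hi).2.2) (fun i hi => (hw.2.2.2.1 i hi).2.2)
    (fun i hi => (hc.1 i hi).2) (fun i hi => (hc.2.1 i hi).2)
    (fun i hi => (hc.2.2.1 i hi).2) (fun i hi => (hc.2.2.2 i hi).2)
    hw.2.2.2.2.1.2.2 hw.2.2.2.2.2.1.2.2 hw.2.2.2.2.2.2.1.2.2 hw.2.2.2.2.2.2.2.1.2.2
    hw.2.2.2.2.2.2.2.2.1.2.2 hw.2.2.2.2.2.2.2.2.2.1.2.2 hw.2.2.2.2.2.2.2.2.2.2.1.2.2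
    hw.2.2.2.2.2.2.2.2.2.2.2.2.2

end Pool.Agent.W577.PK
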