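import Pool.Agent.W841.PK.Stm2

/-! Common facts for the flow lemmas: numbers `rv`, families of test functions, the structure of
the process between `r1` and `r0` remaining non-planted vertices. -/

set_option autoImplicit false

namespace Pool.Agent.W577.PK

open W841.PK Finset
open scoped Classical

noncomputable section

theorem natSqrt_le (n : ℕ) : ((Nat.sqrt n : ℕ) : ℝ) ≤ √(n : ℝ) := by
  apply Real.le_sqrt_of_sq_le
  exact_mod_cast Nat.sqrt_le' n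

theorem rv_anti (n : ℕ) {v u : ℝ} (hv : 0 < v) (h : v ≤ u) : rv n u ≤ rv n v := by
  unfold rv
  refine min_le_min (Nat.floor_mono ?_) le_rfl
  exact div_le_div_of_nonneg_left (Nat.cast_nonneg _) hv h

theorem rv_le_sub (n : ℕ) (x : ℝ) : rv n x ≤ n - Nat.sqrt n := min_le_right _ _

theorem rv_le_div (n : ℕ) {x : ℝ} (hx : 0 < x) : ((rv n x : ℕ) : ℝ) ≤ (n : ℝ) / x := by
  have h1 : rv n x ≤ ⌊(n : ℝ) / x⌋₊ := min_le_left _ _
  calc ((rv n x : ℕ) : ℝ) ≤ ((⌊(n : ℝ) / x⌋₊ : ℕ) : ℝ) := by exact_mod_cast h1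
    _ ≤ _ := Nat.floor_le (by positivity)

theorem rv_lower (x : ℝ) (hx : 1 ≤ x) (δ : ℝ) (hδ : 0 < δ) :
    ∃ n0 : ℕ, 1 ≤ n0 ∧ ∀ n ≥ n0, (n : ℝ) / (x + δ) ≤ ((rv n x : ℕ) : ℝ) := by
  refine ⟨⌈x * (x + δ) / δ⌉₊ + ⌈((x + δ) / δ) ^ 2⌉₊ + 1, by omega, fun n hn => ?_⟩
  have hn' : ((⌈x * (x + δ) / δ⌉₊ : ℕ) : ℝ) + ((⌈((x + δ) / δ) ^ 2⌉₊ : ℕ) : ℝ) + 1 ≤ (n : ℝ) := by
    exact_mod_cast hn
  have a1 := Nat.le_ceil (x * (x + δ) / δ)
  have a2 := Nat.le_ceil (((x + δ) / δ) ^ 2)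
  have b1 : x * (x + δ) / δ ≤ (n : ℝ) := by
    have : (0 : ℝ) ≤ ((⌈((x + δ) / δ) ^ 2⌉₊ : ℕ) : ℝ) := Nat.cast_nonneg _
    linarith
  have b2 : ((x + δ) / δ) ^ 2 ≤ (n : ℝ) := by
    have : (0 : ℝ) ≤ ((⌈x * (x + δ) / δ⌉₊ : ℕ) : ℝ) := Nat.cast_nonneg _
    linarith
  have hx0 : 0 < x := by linarith
  have hxd : 0 < x + δ := by linarith
  unfold rv
  rw [Nat.cast_min]
  refine le_min ?_ ?_
  · have h1 := Nat.lt_floor_add_one ((n : ℝ) / x)
    have h2 : (n : ℝ) / (x + δ) ≤ (n : ℝ) / x - 1 := by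
      rw [div_le_iff₀ hδ] at b1
      rw [div_le_iff₀ hxd, sub_mul, div_mul_eq_mul_div, one_mul, le_sub_iff_add_le,
        le_div_iff₀ hx0]
      nlinarith
    linarith
  · rw [Nat.cast_sub (Nat.sqrt_le_self n)]
    have h1 := natSqrt_le n
    have h2 : (x + δ) / δ ≤ √(n : ℝ) := Real.le_sqrt_of_sq_le b2
    have h3 : √(n : ℝ) * √(n : ℝ) = n := Real.mul_self_sqrt (Nat.cast_nonneg _)
    have h4 : x + δ ≤ √(n : ℝ) * δ := by rwa [div_le_iff₀ hδ] at h2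
    have h5 : 0 ≤ √(n : ℝ) := Real.sqrt_nonneg _
    have h6 : (n : ℝ) / (x + δ) ≤ (n : ℝ) - √(n : ℝ) := by
      rw [div_le_iff₀ hxd]
      nlinarith [mul_le_mul_of_nonneg_left h4 h5, mul_nonneg h5 h5]
    linarith

/-- `n / rv n x` is close to `x` -/
theorem div_rv (x : ℝ) (hx : 1 ≤ x) (δ : ℝ) (hδ : 0 < δ) :
    ∃ n0 : ℕ, 1 ≤ n0 ∧ ∀ n ≥ n0, 0 < rv n x ∧ x ≤ (n : ℝ) / ((rv n x : ℕ) : ℝ) ∧
      (n : ℝ) / ((rv n x : ℕ) : ℝ) ≤ x + δ := by
  obtain ⟨n0, h1, h0⟩ := rv_lower x hx δ hδ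
  refine ⟨n0, h1, fun n hn => ?_⟩
  have hn1 : (1 : ℝ) ≤ n := by exact_mod_cast le_trans h1 hn
  have h := h0 n hn
  have hxd : 0 < x + δ := by linarith
  have hpos : (0 : ℝ) < ((rv n x : ℕ) : ℝ) := lt_of_lt_of_le (by positivity) h
  refine ⟨by exact_mod_cast hpos, ?_, ?_⟩
  · rw [le_div_iff₀ hpos]
    have := rv_le_div n (x := x) (by linarith)
    rw [le_div_iff₀ (by linarith)] at this
    linarith
  · rw [div_le_iff₀ hpos]
    rw [div_le_iff₀ hxd] at h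
    linarith

/-! ### Families of test functions -/

/-- the hypotheses of the fluid limit lemma on the test functions -/
def GoodF (n r0 r1 : ℕ) (C0 : ℝ) (f f' : ℕ → ℝ → ℝ) : Prop :=
  (∀ r, r0 ≤ r → r ≤ r1 → ∀ z, HasDerivAt (f r) (f' r z) z) ∧
  (∀ r, r0 ≤ r → r ≤ r1 → ∀ z, |f' r z| ≤ C0) ∧
  (∀ r, r0 ≤ r → r ≤ r1 → ∀ z z', |f' r z - f' r z'| ≤ C0 * |z - z'|) ∧
  (∀ r, r0 < r → r ≤ r1 → ∀ z,
    |(f (r - 1) (z + hh n r) + f (r - 1) (z - hh n r)) / 2 - f r z| ≤ C0 * hh n r ^ 3)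

theorem GoodF.refl' {n r0 r1 : ℕ} {C0 : ℝ} {f f' : ℕ → ℝ → ℝ} (h : GoodF n r0 r1 C0 f f')
    (c : ℝ) : GoodF n r0 r1 C0 (fun r z => - f r (c - z)) (fun r z => f' r (c - z)) := by
  obtain ⟨h1, h2, h3, h4⟩ := h
  refine ⟨fun r hr hr' z => ?_, fun r hr hr' z => h2 r hr hr' _, fun r hr hr' z z' => ?_,
    fun r hr hr' z => ?_⟩
  · have := ((h1 r hr hr' (c - z)).comp_const_sub c z).neg
    rw [neg_neg] at this
    exact this
  · refine le_trans (h3 r hr hr' _ _) ?_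
    rw [show c - z - (c - z') = -(z - z') by ring, abs_neg]
  · have := h4 r hr hr' (c - z)
    rw [← abs_neg] at this
    refine le_trans (le_of_eq ?_) this
    congr 1
    beta_reduce
    rw [show c - (z + hh n r) = c - z - hh n r by ring,
      show c - (z - hh n r) = c - z + hh n r by ring]
    ring

theorem GoodF.add {n r0 r1 : ℕ} {C0 C1 : ℝ} {f f' g g' : ℕ → ℝ → ℝ}
    (h : GoodF n r0 r1 C0 f f') (k : GoodF n r0 r1 C1 g g') :
    GoodF n r0 r1 (C0 + C1) (fun r z => f r z + g r z) (fun r z => f' r z + g' r z) := by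
  obtain ⟨h1, h2, h3, h4⟩ := h
  obtain ⟨k1, k2, k3, k4⟩ := k
  refine ⟨fun r hr hr' z => ?_, fun r hr hr' z => ?_, fun r hr hr' z z' => ?_,
    fun r hr hr' z => ?_⟩
  · exact (h1 r hr hr' z).add (k1 r hr hr' z)
  · exact le_trans (abs_add_le _ _) (add_le_add (h2 r hr hr' z) (k2 r hr hr' z))
  · rw [show f' r z + g' r z - (f' r z' + g' r z') = (f' r z - f' r z') + (g' r z - g' r z') by
      ring, add_mul]
    exact le_trans (abs_add_le _ _) (add_le_add (h3 r hr hr' z z') (k3 r hr hr' z z'))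
  · have a := h4 r hr hr' z
    have b := k4 r hr hr' z
    rw [add_mul]
    refine le_trans ?_ (add_le_add a b)
    refine le_trans (le_of_eq ?_) (abs_add_le _ _)
    congr 1
    ring

/-- the Gaussian test functions -/
def fN (n : ℕ) (σ y : ℝ) (r0 r : ℕ) (z : ℝ) : ℝ := Ph ((z - y) / sdv n σ r0 r)

def fN' (n : ℕ) (σ y : ℝ) (r0 r : ℕ) (z : ℝ) : ℝ :=
  gd ((z - y) / sdv n σ r0 r) / sdv n σ r0 r

theorem good_N (hgs : S_GStep) (σ : ℝ) (hσ : 0 < σ) : ∃ C0 : ℝ, 0 < C0 ∧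
    (∀ (n r0 r1 : ℕ) (V0 y : ℝ), 0 < V0 → V0 ^ 2 ≤ n → (n : ℝ) / V0 ≤ r0 → 1 ≤ n → 
      GoodF n r0 r1 C0 (fN n σ y r0) (fN' n σ y r0)) ∧
    (∀ v v' z : ℝ, σ ^ 2 ≤ v → σ ^ 2 ≤ v' → |v - v'| ≤ 1 →
      |Ph (z / √v) - Ph (z / √v')| ≤ C0 * |v - v'|) := by
  obtain ⟨C, hC, g1, g2, g3, g4⟩ := hgs σ hσ
  refine ⟨3 * C, by positivity, ?_, ?_⟩
  · intro n r0 r1 V0 y hV hVn hr0 hn
    have hn1 : (1 : ℝ) ≤ n := by exact_mod_cast hn
    have hr0pos : (0 : ℝ) < r0 := lt_of_lt_of_le (by positivity) hr0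
    have hvar : ∀ r : ℕ, r0 ≤ r → σ ^ 2 ≤ σ ^ 2 + ((n : ℝ) / r0 - (n : ℝ) / r) := by
      intro r hr
      have : (n : ℝ) / r ≤ (n : ℝ) / r0 :=
        div_le_div_of_nonneg_left (by positivity) hr0pos (by exact_mod_cast hr)
      linarith
    refine ⟨fun r hr hr' z => ?_, fun r hr hr' z => ?_, fun r hr hr' z z' => ?_,
      fun r hr hr' z => ?_⟩
    · have := (g1 _ (hvar r hr) (z - y)).comp_sub_const z y
      exact this
    · refine le_trans (g2 _ (hvar r hr) (z - y)) (by linarith)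
    · refine le_trans (g3 _ (hvar r hr) (z - y) (z' - y)) ?_
      rw [show z - y - (z' - y) = z - z' by ring]
      have := abs_nonneg (z - z')
      nlinarith
    · have hr1 : r0 ≤ r - 1 := by omega
      have hr01 : 1 ≤ r0 := by exact_mod_cast hr0pos
      have hc : ((r - 1 : ℕ) : ℝ) = (r : ℝ) - 1 := by
        rw [Nat.cast_sub (by omega)]; simp
      have hm : (r0 : ℝ) ≤ (r : ℝ) - 1 := by rw [← hc]; exact_mod_cast hr1
      have hm0 : 0 < (r : ℝ) - 1 := by linarith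
      have hrp : 0 < (r : ℝ) := by linarith
      have hsn : √(n : ℝ) * √(n : ℝ) = n := Real.mul_self_sqrt (Nat.cast_nonneg _)
      have hs1 : 1 ≤ √(n : ℝ) := by rw [Real.one_le_sqrt]; exact hn1
      have hs0 : 0 < √(n : ℝ) := by linarith
      have hh0 : 0 < hh n r := div_pos hs0 hm0
      have hVs : V0 ≤ √(n : ℝ) := Real.le_sqrt_of_sq_le hVn
      have hh1 : hh n r ≤ 1 := by
        unfold hh
        rw [div_le_one hm0]
        rw [div_le_iff₀ hV] at hr0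
        have h1 : √(n : ℝ) * √(n : ℝ) ≤ ((r : ℝ) - 1) * √(n : ℝ) := by
          rw [hsn]
          calc (n : ℝ) ≤ r0 * V0 := hr0
            _ ≤ ((r : ℝ) - 1) * √(n : ℝ) := by
              apply mul_le_mul hm hVs hV.le hm0.le
        exact le_of_mul_le_mul_right h1 hs0
      set h := hh n r with hhdef
      set κ : ℝ := (n : ℝ) / ((r : ℝ) - 1) - (n : ℝ) / r with hκ
      have hh2 : h ^ 2 = (n : ℝ) / ((r : ℝ) - 1) ^ 2 := by
        rw [hhdef]; unfold hh; rw [div_pow, sq (√(n : ℝ)), hsn]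
      have hκ1 : κ = (n : ℝ) / (r * ((r : ℝ) - 1)) := by
        rw [hκ]; field_simp; ring
      have hκ0 : 0 ≤ κ := by rw [hκ1]; positivity
      have hκh : κ ≤ h ^ 2 := by
        rw [hκ1, hh2]
        apply div_le_div_of_nonneg_left (by positivity) (by positivity)
        nlinarith
      have hd : |κ - h ^ 2| ≤ h ^ 3 := by
        rw [abs_sub_comm, abs_of_nonneg (by linarith)]
        have e1 : h ^ 2 - κ = (n : ℝ) / (r * ((r : ℝ) - 1) ^ 2) := by
          rw [hκ1, hh2]; field_simp; ring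
        have e2 : h ^ 3 = (n : ℝ) * √(n : ℝ) / ((r : ℝ) - 1) ^ 3 := by
          rw [pow_succ, hh2, hhdef]; unfold hh; field_simp
        rw [e1, e2, div_le_div_iff₀ (by positivity) (by positivity)]
        have : (n : ℝ) * ((r : ℝ) - 1) ^ 3 ≤ (n : ℝ) * (r * ((r : ℝ) - 1) ^ 2) := by
          apply mul_le_mul_of_nonneg_left _ (by positivity)
          have : 0 < ((r : ℝ) - 1) ^ 2 := by positivity
          nlinarith
        have h2 : (n : ℝ) * (r * ((r : ℝ) - 1) ^ 2) * 1 ≤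
            (n : ℝ) * (r * ((r : ℝ) - 1) ^ 2) * √(n : ℝ) :=
          mul_le_mul_of_nonneg_left hs1 (by positivity)
        nlinarith
      have hκ2 : κ ^ 2 ≤ h ^ 3 := by
        have a1 : κ ^ 2 ≤ (h ^ 2) ^ 2 := pow_le_pow_left₀ hκ0 hκh 2
        have a2 : (h ^ 2) ^ 2 ≤ h ^ 3 := by
          rw [← pow_mul]
          exact pow_le_pow_of_le_one hh0.le hh1 (by norm_num)
        linarith
      have hκle1 : κ ≤ 1 := by
        have : h ^ 2 ≤ 1 := pow_le_one₀ hh0.le hh1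
        linarith
      have key := g4 (σ ^ 2 + ((n : ℝ) / r0 - (n : ℝ) / ((r - 1 : ℕ) : ℝ))) h κ (z - y)
        (hvar _ hr1) hh0.le hh1 hκ0 hκle1
      have e3 : σ ^ 2 + ((n : ℝ) / r0 - (n : ℝ) / ((r - 1 : ℕ) : ℝ)) + κ =
          σ ^ 2 + ((n : ℝ) / r0 - (n : ℝ) / r) := by
        rw [hκ, hc]; ring
      rw [e3] at key
      unfold fN sdv
      rw [show z + h - y = z - y + h by ring, show z - h - y = z - y - h by ring]
      refine le_trans key ?_
      have : h ^ 3 + κ ^ 2 + |κ - h ^ 2| ≤ 3 * h ^ 3 := by linarith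
      nlinarith
  · intro v v' z hv hv' hd
    wlog hle : v ≤ v' generalizing v v' with H
    · have := H v' v hv' hv (by rwa [abs_sub_comm]) (le_of_not_ge hle)
      rwa [abs_sub_comm, abs_sub_comm v v']
    have hd' : |v - v'| = v' - v := by rw [abs_sub_comm]; exact abs_of_nonneg (by linarith)
    rw [hd'] at hd ⊢
    have key := g4 v 0 (v' - v) z hv le_rfl zero_le_one (by linarith) hd
    simp only [add_zero, sub_zero, add_sub_cancel, add_self_div_two] at key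
    refine le_trans key ?_
    have e : |v' - v - 0 ^ 2| = v' - v := by
      rw [show v' - v - 0 ^ 2 = v' - v by ring]; exact abs_of_nonneg (by linarith)
    rw [e]
    have h1 : (v' - v) ^ 2 ≤ v' - v := by nlinarith
    nlinarith

/-! ### Structure of the process -/

section proc

variable {n : ℕ} {S : Finset (Fin n)} {ρ : Rule n} {G : SimpleGraph (Fin n)}

theorem rr_zero (hS : S.card = Nat.sqrt n) : rr S ρ 0 G = n - Nat.sqrt n := by
  unfold rr NN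
  rw [RR_zero, ← hS, card_sdiff_of_subset (subset_univ _), card_univ, Fintype.card_fin]

theorem NN_anti {i j : ℕ} (h : i ≤ j) : NN S ρ j G ⊆ NN S ρ i G := by
  unfold NN
  exact sdiff_subset_sdiff (RR_anti S ρ G h) (Subset.refl _)

theorem rr_anti {i j : ℕ} (h : i ≤ j) : rr S ρ j G ≤ rr S ρ i G := card_le_card (NN_anti h)

theorem rr_le (t : ℕ) : rr S ρ t G ≤ n := by
  unfold rr
  exact le_trans (card_le_univ _) (by simp)

theorem lt_of_rr (hb : S_Basic) (hρ : IsRule ρ) {t : ℕ} (h : 1 ≤ rr S ρ t G) : t < n := by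
  by_contra hc
  push Not at hc
  have h1 := ((hb n S ρ n G hρ).1 le_rfl)
  have h2 : RR S ρ n G = ∅ := by
    rw [← card_eq_zero, h1]; simp
  have h3 : rr S ρ t G ≤ (RR S ρ n G).card := by
    unfold rr
    exact card_le_card ((NN_sub S ρ t G).trans (RR_anti S ρ G hc))
  rw [h2] at h3
  simp at h3
  omega

theorem zz_S (hb : S_Basic) (hρ : IsRule ρ) {t : ℕ} (ht : t < n) (hw : ww S ρ t G ∈ S)
    (a : Fin n) : zz S ρ (t + 1) G a = zz S ρ t G a := by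
  obtain ⟨_, _, _, h4, _⟩ := hb n S ρ t G hρ
  obtain ⟨_, _, hN, hr, _⟩ := h4 ht hw
  unfold zz Xs Xn
  rw [hN, hr]
  simp only [cc, hw, if_true, add_zero]

theorem step_or (hb : S_Basic) (hρ : IsRule ρ) {t : ℕ} (ht : t < n) :
    (ww S ρ t G ∈ S ∧ rr S ρ (t + 1) G = rr S ρ t G) ∨
    (ww S ρ t G ∉ S ∧ rr S ρ (t + 1) G + 1 = rr S ρ t G) := by
  obtain ⟨_, _, h3, h4, _⟩ := hb n S ρ t G hρ
  by_cases hw : ww S ρ t G ∈ S
  · exact Or.inl ⟨hw, (h4 ht hw).2.2.2.1⟩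
  · exact Or.inr ⟨hw, (h3 ht hw).2.2.1⟩

theorem inc_zero {r0 r1 : ℕ} {f : ℕ → ℝ → ℝ}
    {U : ℕ → SimpleGraph (Fin n) → Finset (Fin n)} {j : ℕ} (h : r1 < rr S ρ j G) :
    inc S ρ G r0 r1 f U j = 0 := by
  unfold inc
  rw [if_neg]
  rintro ⟨_, _, h3⟩
  omega

/-- induction over the window -/
theorem window (hb : S_Basic) (hρ : IsRule ρ) (hS : S.card = Nat.sqrt n) {r0 r1 : ℕ}
    (h0 : 1 ≤ r0) (h1 : r1 ≤ n - Nat.sqrt n) (P : ℕ → Prop)
    (hstart : ∀ t, t < n → rr S ρ t G = r1 → (∀ i < t, r1 < rr S ρ i G) → P t)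
    (hstep : ∀ t, t + 1 < n → r0 ≤ rr S ρ (t + 1) G → rr S ρ t G ≤ r1 → P t → P (t + 1)) :
    ∀ t, r0 ≤ rr S ρ t G → rr S ρ t G ≤ r1 → P t := by
  intro t
  induction t with
  | zero =>
    intro ha hb'
    have hlt : 0 < n := lt_of_rr (G := G) hb hρ (le_trans h0 ha)
    refine hstart 0 hlt ?_ (fun i hi => absurd hi (Nat.not_lt_zero _))
    have := rr_zero (ρ := ρ) (G := G) hS
    omega
  | succ t ih =>
    intro ha hb'
    have hlt : t + 1 < n := lt_of_rr hb hρ (le_trans h0 ha)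
    by_cases hc : rr S ρ t G ≤ r1
    · have ha' : r0 ≤ rr S ρ t G := le_trans ha (rr_anti (Nat.le_succ t))
      exact hstep t hlt ha hc (ih ha' hc)
    · push Not at hc
      rcases step_or (S := S) (G := G) hb hρ (show t < n by omega) with h | h
      · omega
      · refine hstart (t + 1) hlt (by omega) (fun i hi => ?_)
        exact lt_of_lt_of_le hc (rr_anti (by omega))

end proc

end

end Pool.Agent.W577.PK
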