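import Pool.Agent.W577.PK.Fam

/-! Flow of Gaussian test functions, non-planted positions. -/

set_option autoImplicit false

namespace Pool.Agent.W577.PK

open W841.PK Finset
open scoped Classical

noncomputable section

theorem inc_S {n : ℕ} {S : Finset (Fin n)} {ρ : Rule n} {G : SimpleGraph (Fin n)} {r0 r1 : ℕ}
    {f : ℕ → ℝ → ℝ} {U : ℕ → SimpleGraph (Fin n) → Finset (Fin n)} {j : ℕ}
    (h : ww S ρ j G ∈ S) : inc S ρ G r0 r1 f U j = 0 := by
  unfold inc NP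
  rw [if_neg]
  rintro ⟨h1, _⟩
  exact h1.1 h

theorem inc_N {n : ℕ} {S : Finset (Fin n)} {ρ : Rule n} {G : SimpleGraph (Fin n)} {r0 r1 : ℕ}
    {f : ℕ → ℝ → ℝ} {U : ℕ → SimpleGraph (Fin n) → Finset (Fin n)} {j : ℕ}
    (hb : S_Basic) (hρ : IsRule ρ) (hj : j < n)
    (h : ww S ρ j G ∉ S) (h0 : r0 ≤ rr S ρ (j + 1) G) (h1 : rr S ρ j G ≤ r1) :
    inc S ρ G r0 r1 f U j = ∑ a ∈ (U j G).erase (ww S ρ j G),
      (f (rr S ρ (j + 1) G) (zz S ρ (j + 1) G a) - f (rr S ρ j G) (zz S ρ j G a)) := by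
  obtain ⟨_, hw, h3, _, _⟩ := hb n S ρ j G hρ
  have hr := (h3 hj h).2.2.1
  unfold inc NP
  rw [if_pos ⟨⟨h, hw hj⟩, by omega, h1⟩]
  rw [show rr S ρ j G - 1 = rr S ρ (j + 1) G by omega]

theorem detN {n : ℕ} {S : Finset (Fin n)} {ρ : Rule n} {G : SimpleGraph (Fin n)}
    (hb : S_Basic) (hρ : IsRule ρ) (hS : S.card = Nat.sqrt n) {r0 r1 : ℕ}
    (h0 : 1 ≤ r0) (h1 : r1 ≤ n - Nat.sqrt n) (f : ℕ → ℝ → ℝ) (hf : ∀ r z, 0 ≤ f r z) :
    ∀ t, r0 ≤ rr S ρ t G → rr S ρ t G ≤ r1 → ∃ t0, rr S ρ t0 G = r1 ∧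
      ∑ a ∈ NN S ρ t G, f (rr S ρ t G) (zz S ρ t G a) ≤
        ∑ a ∈ NN S ρ t0 G, f r1 (zz S ρ t0 G a) +
        ∑ j ∈ range t, inc S ρ G r0 r1 f (fun t G => NN S ρ t G) j := by
  refine window hb hρ hS h0 h1 _ ?_ ?_
  · intro t ht hr hlt
    refine ⟨t, hr, ?_⟩
    rw [sum_eq_zero (s := range t) (fun j hj => inc_zero (hlt j (mem_range.1 hj))), add_zero, hr]
  · rintro t ht ha hb' ⟨t0, hr0, hle⟩
    refine ⟨t0, hr0, ?_⟩
    rw [sum_range_succ]
    by_cases hw : ww S ρ t G ∈ S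
    · rw [inc_S hw, add_zero]
      obtain ⟨_, _, _, h4, _⟩ := hb n S ρ t G hρ
      obtain ⟨_, _, hN, hr, _⟩ := h4 (by omega) hw
      rw [hN, hr]
      simp only [zz_S hb hρ (show t < n by omega) hw]
      exact hle
    · rw [inc_N hb hρ (show t < n by omega) hw ha hb']
      obtain ⟨_, _, h3, _, _⟩ := hb n S ρ t G hρ
      obtain ⟨hwN, hN, hr, _⟩ := h3 (by omega) hw
      rw [sum_sub_distrib]
      have e1 := add_sum_erase (NN S ρ t G) (fun a => f (rr S ρ t G) (zz S ρ t G a)) hwN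
      have e2 := hf (rr S ρ t G) (zz S ρ t G (ww S ρ t G))
      beta_reduce at e1
      rw [hN]
      linarith

theorem flown (hb : S_Basic) (hfl : S_FL) (hm : S_MeasP) (hg : S_Gauss) (hgs : S_GStep)
    (_hh : S_HeatC) (hs : S_StartN) : S_FlowN := by
  intro v F hv hF hAN u y σ ε hvu hσ hε η hη
  obtain ⟨C0, hC0, hgood, hvar⟩ := good_N hgs σ hσ
  have hu : 1 ≤ u := by linarith
  have hσ2 : 0 < σ ^ 2 := by positivity
  have hs2 : 0 < σ ^ 2 + (u - v) := by linarith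
  have hspos : 0 < √(σ ^ 2 + (u - v)) := Real.sqrt_pos.2 hs2
  have hε1 : 0 < min (ε / 4) (η / 2) := lt_min (by linarith) (by linarith)
  obtain ⟨n1, h1⟩ := hfl (u + 1) C0 (min (ε / 4) (η / 2)) (by linarith) hC0 hε1
  obtain ⟨n2, h2⟩ := hs v F hv hF hAN y (√(σ ^ 2 + (u - v))) (ε / 4) hspos (by linarith)
    (η / 2) (by linarith)
  have hδ : 0 < min 1 (ε / (4 * C0)) := lt_min one_pos (by positivity)
  obtain ⟨n3, hn3, h3⟩ := div_rv u hu _ hδ
  obtain ⟨n4, hn4, h4⟩ := div_rv v hv _ hδ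
  obtain ⟨n5, hn5, h5⟩ := rv_lower u hu 1 one_pos
  refine ⟨n1 + n2 + n3 + n4 + n5 + ⌈(u + 1) ^ 2⌉₊, fun n hn S ρ hS hρ => ?_⟩
  have hn0 : 1 ≤ n := by omega
  have hnu : (u + 1) ^ 2 ≤ (n : ℝ) := by
    have := Nat.le_ceil ((u + 1) ^ 2)
    have h' : ((⌈(u + 1) ^ 2⌉₊ : ℕ) : ℝ) ≤ n := by exact_mod_cast (by omega)
    linarith
  obtain ⟨hr0, hr0a, hr0b⟩ := h3 n (by omega)
  obtain ⟨hr1, hr1a, hr1b⟩ := h4 n (by omega)
  have h5' := h5 n (by omega)
  set r0 := rv n u with hr0def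
  set r1 := rv n v with hr1def
  have hr01 : r0 ≤ r1 := rv_anti n (by linarith) hvu
  have hgd := hgood n r0 r1 (u + 1) y (by linarith) hnu h5' hn0
  obtain ⟨g1, g2, g3, g4⟩ := hgd
  have hFL := h1 n (by omega) S ρ hS hρ false r0 r1 (fN n σ y r0) (fN' n σ y r0)
    (fun t G => NN S ρ t G) h5' g1 g2 g3 g4
    (by
      intro t G G' hG
      have := (hm n S ρ t G G' hρ hG).2.1
      show NN S ρ t G = NN S ρ t G'
      unfold NN; rw [this])
    (by intro t G; simp)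
  have hST := h2 n (by omega) S ρ hS hρ
  refine le_trans (Pr_mono ?_) (le_trans (Pr_or_le _ _) (le_trans (add_le_add hFL hST) ?_))
  · intro G hG
    by_contra hcon
    push Not at hcon
    obtain ⟨hc1, hc2⟩ := hcon
    apply hG
    intro t ht0 ht1
    obtain ⟨t0, hrt0, hle⟩ := detN (G := G) hb hρ hS hr0 (rv_le_sub n v) (fN n σ y r0)
      (fun r z => (hg.2.2.2.2.1 _).1.le) t ht0 ht1
    have htn : t < n := lt_of_rr hb hρ (le_trans hr0 ht0)
    have hc1' := hc1 t htn.le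
    have hc2' := hc2 t0 hrt0
    have hsq : √(σ ^ 2 + (u - v)) ^ 2 = σ ^ 2 + (u - v) := Real.sq_sqrt hs2.le
    rw [hsq] at hc2'
    have hnpos : (0 : ℝ) < n := by exact_mod_cast hn0
    -- comparison of the standard deviations
    have hcomp : ∀ z, fN n σ y r0 r1 z ≤ Ph ((z - y) / √(σ ^ 2 + (u - v))) + ε / 4 := by
      intro z
      have hd1 : |σ ^ 2 + ((n : ℝ) / r0 - (n : ℝ) / r1) - (σ ^ 2 + (u - v))| ≤
          min 1 (ε / (4 * C0)) := by
        rw [abs_le]; constructor <;> linarith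
      have hrr : (n : ℝ) / r1 ≤ (n : ℝ) / r0 :=
        div_le_div_of_nonneg_left (by positivity) (by exact_mod_cast hr0) (by exact_mod_cast hr01)
      have := hvar (σ ^ 2 + ((n : ℝ) / r0 - (n : ℝ) / r1)) (σ ^ 2 + (u - v)) (z - y)
        (by linarith) (by linarith) (le_trans hd1 (min_le_left _ _))
      have h7 := (abs_le.1 this).2
      have h8 : C0 * |σ ^ 2 + ((n : ℝ) / r0 - (n : ℝ) / r1) - (σ ^ 2 + (u - v))| ≤ ε / 4 := by
        have := mul_le_mul_of_nonneg_left (le_trans hd1 (min_le_right _ _)) hC0.le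
        refine le_trans this (le_of_eq ?_)
        field_simp
      unfold fN sdv
      linarith
    have hsum : ∑ a ∈ NN S ρ t0 G, fN n σ y r0 r1 (zz S ρ t0 G a) ≤
        ∑ a ∈ NN S ρ t0 G, Ph ((zz S ρ t0 G a - y) / √(σ ^ 2 + (u - v))) + ε / 4 * n := by
      calc ∑ a ∈ NN S ρ t0 G, fN n σ y r0 r1 (zz S ρ t0 G a) ≤
          ∑ a ∈ NN S ρ t0 G, (Ph ((zz S ρ t0 G a - y) / √(σ ^ 2 + (u - v))) + ε / 4) :=
            sum_le_sum fun a _ => hcomp _
        _ = ∑ a ∈ NN S ρ t0 G, Ph ((zz S ρ t0 G a - y) / √(σ ^ 2 + (u - v))) +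
            (rr S ρ t0 G : ℝ) * (ε / 4) := by
            rw [sum_add_distrib, sum_const, nsmul_eq_mul]; rfl
        _ ≤ _ := by
            have : (rr S ρ t0 G : ℝ) ≤ n := by exact_mod_cast rr_le t0
            nlinarith
    have hinc : ∑ j ∈ range t, inc S ρ G r0 r1 (fN n σ y r0) (fun t G => NN S ρ t G) j ≤
        ε / 4 * n := by
      refine le_trans (le_abs_self _) (le_trans hc1' ?_)
      simp only [uu, Bool.false_eq_true, if_false]
      exact mul_le_mul_of_nonneg_right (min_le_left _ _) hnpos.le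
    have hfin : ∑ a ∈ NN S ρ t G, Ph ((zz S ρ t G a - y) / sdv n σ r0 (rr S ρ t G)) =
      ∑ a ∈ NN S ρ t G, fN n σ y r0 (rr S ρ t G) (zz S ρ t G a) := rfl
    rw [hfin]
    nlinarith
  · have := min_le_right (ε / 4) (η / 2)
    linarith

end

end Pool.Agent.W577.PK
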