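import Pool.Agent.W577.PK.FlowN

/-! Flow of Gaussian test functions, planted positions. -/

set_option autoImplicit false

namespace Pool.Agent.W577.PK

open W841.PK Finset
open scoped Classical

noncomputable section

theorem meas_Trk {n : ℕ} {S : Finset (Fin n)} {ρ : Rule n} (hm : S_MeasP) (hρ : IsRule ρ)
    (B : ℝ) (r1 t : ℕ) : Meas S ρ t (fun G => Trk S ρ t G B r1) := by
  intro G G' hG
  have h := hm n S ρ t G G' hρ hG
  have hR : ∀ i ≤ t, RR S ρ i G = RR S ρ i G' := fun i hi => (hG i hi).1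
  have hr : ∀ i ≤ t, rr S ρ i G = rr S ρ i G' := by
    intro i hi; unfold rr NN; rw [hR i hi]
  have hz : ∀ i ≤ t, ∀ a ∈ RR S ρ i G, zz S ρ i G a = zz S ρ i G' a := by
    intro i hi
    exact (hm n S ρ i G G' hρ (h.1 i hi)).2.2.2.2.2.2.2.2.2.2
  show Trk S ρ t G B r1 = Trk S ρ t G' B r1
  unfold Trk
  have hSS : SS S ρ t G = SS S ρ t G' := by unfold SS; rw [hR t le_rfl]
  rw [← hSS]
  refine filter_congr fun a ha => ?_
  have haR : ∀ i ≤ t, a ∈ RR S ρ i G := fun i hi => RR_anti S ρ G hi (SS_sub S ρ t G ha)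
  constructor
  · intro H i hi hri
    rw [← hz i hi a (haR i hi)]
    exact H i hi (by rw [hr i hi]; exact hri)
  · intro H i hi hri
    rw [hz i hi a (haR i hi)]
    exact H i hi (by rw [← hr i hi]; exact hri)

theorem detS {n : ℕ} {S : Finset (Fin n)} {ρ : Rule n} {G : SimpleGraph (Fin n)}
    (hb : S_Basic) (hρ : IsRule ρ) (hS : S.card = Nat.sqrt n) {r0 r1 : ℕ}
    (h0 : 1 ≤ r0) (h1 : r1 ≤ n - Nat.sqrt n) (f : ℕ → ℝ → ℝ) (B : ℝ)
    (hf : ∀ r z, z < B → f r z ≤ 0) :
    ∀ t, r0 ≤ rr S ρ t G → rr S ρ t G ≤ r1 →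
      ((∀ i < t, rr S ρ i G ≤ r1 → ww S ρ i G ∉ Trk S ρ i G B r1) →
      ∃ t0, rr S ρ t0 G = r1 ∧
      ∑ a ∈ (SS S ρ t0 G).filter (fun a => B ≤ zz S ρ t0 G a), f r1 (zz S ρ t0 G a) +
        ∑ j ∈ range t, inc S ρ G r0 r1 f (fun t G => Trk S ρ t G B r1) j ≤
      ∑ a ∈ Trk S ρ t G B r1, f (rr S ρ t G) (zz S ρ t G a)) := by
  refine window hb hρ hS h0 h1 _ ?_ ?_
  · intro t ht hr hlt _
    refine ⟨t, hr, ?_⟩
    rw [sum_eq_zero (s := range t) (fun j hj => inc_zero (hlt j (mem_range.1 hj))), add_zero, hr]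
    apply le_of_eq
    apply sum_congr _ (fun _ _ => rfl)
    unfold Trk
    refine filter_congr fun a _ => ?_
    constructor
    · intro H i hi hri
      rcases Nat.lt_or_eq_of_le hi with h | h
      · have := hlt i h; omega
      · rw [h]; exact H
    · intro H
      exact H t le_rfl hr.le
  · intro t ht ha hb' ih hno
    obtain ⟨t0, hr0, hle⟩ := ih (fun i hi => hno i (by omega))
    refine ⟨t0, hr0, ?_⟩
    rw [sum_range_succ]
    by_cases hw : ww S ρ t G ∈ S
    · rw [inc_S hw, add_zero]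
      obtain ⟨_, _, _, h4, _⟩ := hb n S ρ t G hρ
      obtain ⟨_, hSS, hN, hr, _⟩ := h4 (by omega) hw
      have hnt := hno t (Nat.lt_succ_self t) hb'
      have hT : Trk S ρ (t + 1) G B r1 = Trk S ρ t G B r1 := by
        ext a
        unfold Trk
        rw [mem_filter, mem_filter, hSS, mem_erase]
        constructor
        · rintro ⟨⟨_, h1⟩, h2⟩
          exact ⟨h1, fun i hi => h2 i (by omega)⟩
        · rintro ⟨h1, h2⟩
          refine ⟨⟨?_, h1⟩, ?_⟩
          · rintro rfl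
            apply hnt
            unfold Trk
            exact mem_filter.2 ⟨h1, h2⟩
          · intro i hi hri
            rcases Nat.lt_or_eq_of_le hi with h | h
            · exact h2 i (by omega) hri
            · subst h
              rw [zz_S hb hρ (show t < n by omega) hw]
              exact h2 t le_rfl hb'
      rw [hT, hr]
      simp only [zz_S hb hρ (show t < n by omega) hw]
      exact hle
    · rw [inc_N hb hρ (show t < n by omega) hw ha hb']
      obtain ⟨_, _, h3, _, _⟩ := hb n S ρ t G hρ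
      obtain ⟨hwN, hN, hr, hSS, _⟩ := h3 (by omega) hw
      have hwT : ww S ρ t G ∉ Trk S ρ t G B r1 := by
        intro h
        unfold Trk at h
        rw [mem_filter] at h
        have := h.1
        unfold SS at this
        exact hw (mem_inter.1 this).2
      rw [erase_eq_of_notMem hwT, sum_sub_distrib]
      have hT : Trk S ρ (t + 1) G B r1 =
          (Trk S ρ t G B r1).filter (fun a => B ≤ zz S ρ (t + 1) G a) := by
        ext a
        unfold Trk
        rw [mem_filter, mem_filter, mem_filter, hSS]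
        have hri : rr S ρ (t + 1) G ≤ r1 := by omega
        constructor
        · rintro ⟨h1, h2⟩
          exact ⟨⟨h1, fun i hi => h2 i (by omega)⟩, h2 (t + 1) le_rfl hri⟩
        · rintro ⟨⟨h1, h2⟩, h5⟩
          refine ⟨h1, ?_⟩
          intro i hi hri
          rcases Nat.lt_or_eq_of_le hi with h | h
          · exact h2 i (by omega) hri
          · rw [h]; exact h5
      have e3 : ∑ a ∈ Trk S ρ t G B r1, f (rr S ρ (t + 1) G) (zz S ρ (t + 1) G a) ≤
          ∑ a ∈ Trk S ρ (t + 1) G B r1, f (rr S ρ (t + 1) G) (zz S ρ (t + 1) G a) := by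
        rw [hT, sum_filter]
        refine sum_le_sum fun a _ => ?_
        split_ifs with hc
        · exact le_rfl
        · exact hf _ _ (not_le.1 hc)
      linarith

theorem ss_le {n : ℕ} {S : Finset (Fin n)} {ρ : Rule n} {G : SimpleGraph (Fin n)}
    (hS : S.card = Nat.sqrt n) (t : ℕ) (p : Fin n → Prop) :
    ((((SS S ρ t G).filter p).card : ℕ) : ℝ) ≤ √(n : ℝ) := by
  refine le_trans ?_ (natSqrt_le n)
  rw [← hS]
  exact_mod_cast card_le_card ((filter_subset _ _).trans inter_subset_right)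

theorem flows (hb : S_Basic) (hfl : S_FL) (hm : S_MeasP) (hg : S_Gauss) (hgs : S_GStep)
    (_hh : S_HeatC) (hs : S_StartS) : S_FlowS := by
  intro v F hv hF hAN u B y σ ε hvu hBy hσ hε η hη
  obtain ⟨C0, hC0, hgood, hvar⟩ := good_N hgs σ hσ
  have hu : 1 ≤ u := by linarith
  have hσ2 : 0 < σ ^ 2 := by positivity
  have hs2 : 0 < σ ^ 2 + (u - v) := by linarith
  have hspos : 0 < √(σ ^ 2 + (u - v)) := Real.sqrt_pos.2 hs2
  have hε1 : 0 < min (ε / 4) (η / 2) := lt_min (by linarith) (by linarith)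
  obtain ⟨n1, h1⟩ := hfl (u + 1) (C0 + C0) (min (ε / 4) (η / 2)) (by linarith) (by linarith) hε1
  obtain ⟨n2, h2⟩ := hs v F hv hF hAN B y (√(σ ^ 2 + (u - v))) (ε / 4) hBy hspos (by linarith)
    (η / 2) (by linarith)
  have hδ : 0 < min 1 (ε / (8 * C0)) := lt_min one_pos (by positivity)
  obtain ⟨n3, hn3, h3⟩ := div_rv u hu _ hδ
  obtain ⟨n4, hn4, h4⟩ := div_rv v hv _ hδ
  obtain ⟨n5, hn5, h5⟩ := rv_lower u hu 1 one_pos
  refine ⟨n1 + n2 + n3 + n4 + n5 + ⌈(u + 1) ^ 2⌉₊, fun n hn S ρ hS hρ => ?_⟩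
  have hn0 : 1 ≤ n := by omega
  have hnu : (u + 1) ^ 2 ≤ (n : ℝ) := by
    have := Nat.le_ceil ((u + 1) ^ 2)
    have h' : ((⌈(u + 1) ^ 2⌉₊ : ℕ) : ℝ) ≤ n := by exact_mod_cast (by omega)
    linarith
  obtain ⟨hr0, hr0a, hr0b⟩ := h3 n (by omega)
  obtain ⟨hr1, hr1a, hr1b⟩ := h4 n (by omega)
  have h5' := h5 n (by omega)
  set r0 := rv n u with hr0def
  set r1 := rv n v with hr1def
  have hr01 : r0 ≤ r1 := rv_anti n (by linarith) hvu
  have hgd := hgood n r0 r1 (u + 1) y (by linarith) hnu h5' hn0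
  have hgd2 := hgd.add (hgd.refl' (2 * B))
  set f : ℕ → ℝ → ℝ := fun r z => fN n σ y r0 r z + - fN n σ y r0 r (2 * B - z) with hfdef
  obtain ⟨g1, g2, g3, g4⟩ := hgd2
  have hFL := h1 n (by omega) S ρ hS hρ true r0 r1 f
    (fun r z => fN' n σ y r0 r z + fN' n σ y r0 r (2 * B - z))
    (fun t G => Trk S ρ t G B r1) h5' g1 g2 g3 g4
    (fun t => meas_Trk hm hρ B r1 t)
    (by intro t G; simp only [if_true]; exact filter_subset _ _)
  have hST := h2 n (by omega) S ρ hS hρ
  have hf0 : ∀ r z, z < B → f r z ≤ 0 := by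
    intro r z hz
    have hmono : Monotone Ph := hg.2.2.2.1
    have : fN n σ y r0 r z ≤ fN n σ y r0 r (2 * B - z) := by
      unfold fN
      apply hmono
      apply div_le_div_of_nonneg_right _ (Real.sqrt_nonneg _)
      linarith
    rw [hfdef]; beta_reduce
    linarith
  refine le_trans (Pr_mono ?_) (le_trans (Pr_or_le _ _) (le_trans (add_le_add hFL hST) ?_))
  · intro G hG
    by_contra hcon
    push Not at hcon
    obtain ⟨hc1, hc2⟩ := hcon
    apply hG
    intro t ht0 ht1 hno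
    obtain ⟨t0, hrt0, hle⟩ := detS (G := G) hb hρ hS hr0 (rv_le_sub n v) f B hf0 t ht0 ht1 hno
    have htn : t < n := lt_of_rr hb hρ (le_trans hr0 ht0)
    have hc1' := hc1 t htn.le
    have hc2' := hc2 t0 hrt0
    have hsq : √(σ ^ 2 + (u - v)) ^ 2 = σ ^ 2 + (u - v) := Real.sq_sqrt hs2.le
    rw [hsq] at hc2'
    have hnpos : (0 : ℝ) < √(n : ℝ) := Real.sqrt_pos.2 (by exact_mod_cast hn0)
    -- comparison of the standard deviations
    have hcomp1 : ∀ z, |fN n σ y r0 r1 z - Ph ((z - y) / √(σ ^ 2 + (u - v)))| ≤ ε / 8 := by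
      intro z
      have hd1 : |σ ^ 2 + ((n : ℝ) / r0 - (n : ℝ) / r1) - (σ ^ 2 + (u - v))| ≤
          min 1 (ε / (8 * C0)) := by
        rw [abs_le]; constructor <;> linarith
      have hrr : (n : ℝ) / r1 ≤ (n : ℝ) / r0 :=
        div_le_div_of_nonneg_left (by positivity) (by exact_mod_cast hr0) (by exact_mod_cast hr01)
      have := hvar (σ ^ 2 + ((n : ℝ) / r0 - (n : ℝ) / r1)) (σ ^ 2 + (u - v)) (z - y)
        (by linarith) (by linarith) (le_trans hd1 (min_le_left _ _))
      have h8 : C0 * |σ ^ 2 + ((n : ℝ) / r0 - (n : ℝ) / r1) - (σ ^ 2 + (u - v))| ≤ ε / 8 := by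
        have := mul_le_mul_of_nonneg_left (le_trans hd1 (min_le_right _ _)) hC0.le
        refine le_trans this (le_of_eq ?_)
        field_simp
      unfold fN sdv
      exact le_trans this h8
    have hcomp : ∀ z, Ph ((z - y) / √(σ ^ 2 + (u - v))) -
        Ph ((2 * B - z - y) / √(σ ^ 2 + (u - v))) - ε / 4 ≤ f r1 z := by
      intro z
      have a1 := (abs_le.1 (hcomp1 z)).1
      have a2 := (abs_le.1 (hcomp1 (2 * B - z))).2
      rw [hfdef]; beta_reduce
      linarith
    have hsum : ∑ a ∈ (SS S ρ t0 G).filter (fun a => B ≤ zz S ρ t0 G a),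
          (Ph ((zz S ρ t0 G a - y) / √(σ ^ 2 + (u - v))) -
          Ph ((2 * B - zz S ρ t0 G a - y) / √(σ ^ 2 + (u - v)))) - ε / 4 * √(n : ℝ) ≤
        ∑ a ∈ (SS S ρ t0 G).filter (fun a => B ≤ zz S ρ t0 G a), f r1 (zz S ρ t0 G a) := by
      have e1 : ∑ a ∈ (SS S ρ t0 G).filter (fun a => B ≤ zz S ρ t0 G a),
          (Ph ((zz S ρ t0 G a - y) / √(σ ^ 2 + (u - v))) -
          Ph ((2 * B - zz S ρ t0 G a - y) / √(σ ^ 2 + (u - v))) - ε / 4) ≤
        ∑ a ∈ (SS S ρ t0 G).filter (fun a => B ≤ zz S ρ t0 G a), f r1 (zz S ρ t0 G a) :=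
        sum_le_sum fun a _ => hcomp _
      rw [sum_sub_distrib, sum_const, nsmul_eq_mul] at e1
      have e2 := ss_le (G := G) (ρ := ρ) hS t0 (fun a => B ≤ zz S ρ t0 G a)
      nlinarith
    have hinc : -(ε / 4 * √(n : ℝ)) ≤
        ∑ j ∈ range t, inc S ρ G r0 r1 f (fun t G => Trk S ρ t G B r1) j := by
      have h9 := (abs_le.1 (le_trans hc1' (show min (ε / 4) (η / 2) * uu true n ≤
        ε / 4 * √(n : ℝ) by
          simp only [uu, if_true]
          exact mul_le_mul_of_nonneg_right (min_le_left _ _) hnpos.le))).1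
      exact h9
    have hfin : ∑ a ∈ Trk S ρ t G B r1,
        (Ph ((zz S ρ t G a - y) / sdv n σ r0 (rr S ρ t G)) -
          Ph ((2 * B - zz S ρ t G a - y) / sdv n σ r0 (rr S ρ t G))) =
        ∑ a ∈ Trk S ρ t G B r1, f (rr S ρ t G) (zz S ρ t G a) := by
      refine sum_congr rfl fun a _ => ?_
      rw [hfdef]; beta_reduce; unfold fN
      ring
    rw [hfin]
    nlinarith
  · have := min_le_right (ε / 4) (η / 2)
    linarith

end

end Pool.Agent.W577.PK
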